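import Mathlib

namespace Pool.Agent.H.MP_21d915_nt
open Complex Filter Topology Set Polynomial

inductive T
  | lam | x | num (q : ℚ) | add (s t : T) | mul (s t : T) | ex (s : T) | sol (s : T) (n : ℕ)
  deriving Countable

noncomputable def U : ℕ → Set ℂ := (TopologicalSpace.exists_seq_basis ℂ).choose

lemma hU : TopologicalSpace.IsTopologicalBasis (range U) :=
  (TopologicalSpace.exists_seq_basis ℂ).choose_spec

noncomputable def ev : T → ℂ × ℂ → ℂ
  | .lam => fun p => p.1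
  | .x => fun p => p.2
  | .num q => fun _ => q
  | .add s t => fun p => ev s p + ev t p
  | .mul s t => fun p => ev s p * ev t p
  | .ex s => fun p => exp (ev s p)
  | .sol s n => fun p => Classical.epsilon (fun y => y ∈ U n ∧ ev s (p.1, y) = 0)

def Rep (l : ℂ) (g : ℂ → ℂ) : Prop :=
  ∃ t, (∀ y, ContDiffAt ℂ 1 (ev t) (l, y)) ∧ ∀ y, ev t (l, y) = g y

variable {l : ℂ}

lemma Rep.add {g h : ℂ → ℂ} (a : Rep l g) (b : Rep l h) : Rep l (fun y => g y + h y) := by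
  obtain ⟨s, s1, s2⟩ := a
  obtain ⟨t, t1, t2⟩ := b
  exact ⟨.add s t, fun y => (s1 y).add (t1 y), fun y => by simp [ev, s2, t2]⟩

lemma Rep.mul {g h : ℂ → ℂ} (a : Rep l g) (b : Rep l h) : Rep l (fun y => g y * h y) := by
  obtain ⟨s, s1, s2⟩ := a
  obtain ⟨t, t1, t2⟩ := b
  exact ⟨.mul s t, fun y => (s1 y).mul (t1 y), fun y => by simp [ev, s2, t2]⟩

lemma Rep.ex {g : ℂ → ℂ} (a : Rep l g) : Rep l (fun y => exp (g y)) := by
  obtain ⟨s, s1, s2⟩ := a
  exact ⟨.ex s, fun y => (s1 y).cexp, fun y => by simp [ev, s2]⟩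

lemma Rep.num (q : ℚ) : Rep l (fun _ => q) := ⟨.num q, fun _ => contDiffAt_const, fun _ => rfl⟩
lemma Rep.lam : Rep l (fun _ => l) := ⟨.lam, fun _ => contDiffAt_fst, fun _ => rfl⟩
lemma Rep.x : Rep l (fun y => y) := ⟨.x, fun _ => contDiffAt_snd, fun _ => rfl⟩

lemma Rep.sol {g : ℂ → ℂ} (a : Rep l g) (z c : ℂ) (h0 : g z = 0) (hd : HasDerivAt g c z)
    (hc : c ≠ 0) : Rep l (fun _ => z) := by
  obtain ⟨s, s1, s2⟩ := a
  have h1 : HasFDerivAt (fun y => ev s (l, y)) (fderiv ℂ (ev s) (l, z) ∘L .inr ℂ ℂ ℂ) z :=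
    ((s1 z).differentiableAt one_ne_zero).hasFDerivAt.comp z (hasFDerivAt_prodMk_right l z)
  rw [show (fun y => ev s (l, y)) = g from funext s2] at h1
  have h2 : (fderiv ℂ (ev s) (l, z) ∘L .inr ℂ ℂ ℂ).IsInvertible := by
    rw [h1.unique hd.hasFDerivAt]
    exact ⟨ContinuousLinearEquiv.unitsEquivAut ℂ (Units.mk0 c hc), by ext; simp⟩
  set ψ := (s1 z).implicitFunction one_ne_zero h2
  have p1 : ψ l = z := (s1 z).implicitFunction_apply_self one_ne_zero h2
  have p2 : ContDiffAt ℂ 1 ψ l := (s1 z).contDiffAt_implicitFunction one_ne_zero h2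
  have p3 : ∀ᶠ v in 𝓝 (l, z), ev s v = ev s (l, z) ↔ ψ v.1 = v.2 :=
    (s1 z).eventually_apply_eq_iff_implicitFunction one_ne_zero h2
  rw [s2, h0, nhds_prod_eq, eventually_prod_iff] at p3
  obtain ⟨A, hA, B, hB, p3⟩ := p3
  obtain ⟨_, ⟨n, rfl⟩, hz, hn⟩ := hU.mem_nhds_iff.1 hB
  have p4 : ∀ᶠ v in 𝓝 l, ψ v ∈ U n :=
    p2.continuousAt.eventually_mem (p1 ▸ hU.mem_nhds ⟨n, rfl⟩ hz)
  have p5 : ∀ᶠ v in 𝓝 l, ∀ y, ev (.sol s n) (v, y) = ψ v := by
    filter_upwards [hA, p4] with v h1 h2 y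
    have := Classical.epsilon_spec (p := fun y => y ∈ U n ∧ ev s (v, y) = 0)
      ⟨ψ v, h2, (p3 h1 (hn h2)).2 rfl⟩
    exact ((p3 h1 (hn this.1)).1 this.2).symm
  refine ⟨.sol s n, fun y => ?_, fun y => by rw [p5.self_of_nhds, p1]⟩
  refine ((p2.comp (l, y) contDiffAt_fst)).congr_of_eventuallyEq ?_
  filter_upwards [(continuousAt_fst (p := (l, y))).eventually p5] with v hv
  exact hv v.2

def K (l : ℂ) : Subfield ℂ where
  carrier := {z | Rep l (fun _ => z)}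
  mul_mem' := fun a b => Rep.mul a b
  add_mem' := fun a b => Rep.add a b
  one_mem' := by simpa using Rep.num (l := l) 1
  zero_mem' := by simpa using Rep.num (l := l) 0
  neg_mem' := fun {z} a => by simpa using (Rep.num (l := l) (-1)).mul a
  inv_mem' := fun z a => by
    by_cases hz : z = 0
    · simpa [hz] using Rep.num (l := l) 0
    refine ((Rep.x.mul a).add (Rep.num (-1))).sol z⁻¹ z (by simp [hz]) ?_ hz
    simpa using ((hasDerivAt_id z⁻¹).mul_const z).add_const (-1)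

lemma rep_poly (P : (K l)[X]) : Rep l (fun y => aeval y P) := by
  induction P using Polynomial.induction_on with
  | C a => simp only [aeval_C]; exact a.2
  | add p q hp hq => simpa using hp.add hq
  | monomial n a h => simpa [pow_succ, mul_assoc] using h.mul Rep.x

lemma K_alg (z : ℂ) (h : IsAlgebraic (K l) z) : z ∈ K l := by
  have hi := h.isIntegral
  have hs : (minpoly (K l) z).Separable := (minpoly.irreducible hi).separable
  exact (rep_poly (minpoly (K l) z)).sol z _ (minpoly.aeval _ _) (Polynomial.hasDerivAt_aeval _ z)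
    (hs.aeval_derivative_ne_zero (minpoly.aeval _ _))

lemma K_exp (z : ℂ) (h : z ∈ K l) : exp (z * l) ∈ K l := (Rep.mul h Rep.lam).ex

lemma K_log (hl : l ≠ 0) (w : ℂ) (h : exp (w * l) ∈ K l) : w ∈ K l := by
  refine ((Rep.x.mul Rep.lam).ex.add ((K l).neg_mem h)).sol w (exp (w * l) * l) (by simp) ?_
    (mul_ne_zero (exp_ne_zero _) hl)
  simpa using (((hasDerivAt_id w).mul_const l).cexp).add_const (-exp (w * l))

theorem exists_pair : ∃ a b : ℂ, a ≠ 0 ∧ a ≠ 1 ∧ b ≠ 0 ∧ b ≠ 1 ∧ ∀ l, ¬ (a ∈ K l ∧ b ∈ K l) := by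
  let f : T × T → ℂ → ℂ × ℂ := fun i v => (ev i.1 (v, 0), ev i.2 (v, 0))
  let S : Set (ℂ × ℂ) := ⋃ i, f i '' {v | ContDiffAt ℂ 1 (f i) v}
  have hS : dimH S < Module.finrank ℝ (ℂ × ℂ) := by
    rw [dimH_iUnion]
    refine lt_of_le_of_lt (b := 2) (iSup_le fun i => ?_) (by simp; norm_num)
    refine (dimH_image_le_of_locally_lipschitzOn fun v hv => ?_).trans ?_
    · have hv' : ContDiffAt ℂ 1 (f i) v := hv
      obtain ⟨C, t, ht, h⟩ := ContDiffAt.exists_lipschitzOnWith (hv'.restrict_scalars ℝ)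
      exact ⟨C, t, mem_nhdsWithin_of_mem_nhds ht, h⟩
    · refine (dimH_mono (subset_univ _)).trans ?_
      rw [Real.dimH_univ_eq_finrank]; simp
  have ho : IsOpen {p : ℂ × ℂ | p.1 ≠ 0 ∧ p.1 ≠ 1 ∧ p.2 ≠ 0 ∧ p.2 ≠ 1} :=
    (isOpen_ne_fun continuous_fst continuous_const).inter
      ((isOpen_ne_fun continuous_fst continuous_const).inter
        ((isOpen_ne_fun continuous_snd continuous_const).inter
          (isOpen_ne_fun continuous_snd continuous_const)))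
  obtain ⟨p, hp, hp'⟩ := (dense_compl_of_dimH_lt_finrank hS).inter_open_nonempty _ ho
    ⟨(2, 2), by norm_num⟩
  refine ⟨p.1, p.2, hp.1, hp.2.1, hp.2.2.1, hp.2.2.2, fun l ⟨⟨s, s1, s2⟩, ⟨t, t1, t2⟩⟩ => hp' ?_⟩
  refine mem_iUnion.2 ⟨(s, t), l, ?_, Prod.ext (s2 0) (t2 0)⟩
  exact ((s1 0).comp l (contDiffAt_id.prodMk contDiffAt_const)).prodMk
    ((t1 0).comp l (contDiffAt_id.prodMk contDiffAt_const))

end Pool.Agent.H.MP_21d915_nt
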